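import Pool.Agent.H322R2.DFin2

/-!
Effective Siegel theorem in the fibres of an arbitrary polynomial with squarefree leading form.
-/

set_option autoImplicit false

namespace Pool.Agent.Results.MP_2d259b_nt.AllFibres

open Pool.Agent.H322R2 in
/-- Let `F` be any integer polynomial in two variables of total degree `d ≥ 4` whose leading form
is squarefree over `ℚ`, and let `H` be at least the sum of the absolute values of the coefficients
of `F`. Then for all but at most `10 ^ 9 * 36 ^ d * (d + 1) ^ 7 * H ^ (1 / d)` of the integers `t`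
with `|t| ≤ H`, every integer solution `(x, y)` of `F(x, y) = t` satisfies
`max |x| |y| ≤ ((d + 1) * H) ^ (2 * 10 ^ 11 * 36 ^ d * (d + 1) ^ 13)`. -/
theorem result (d : ℕ) (hd : 4 ≤ d) (F : MvPolynomial (Fin 2) ℤ) (hF : F.totalDegree = d)
    (hsq : Squarefree (MvPolynomial.map (Int.castRingHom ℚ)
      (MvPolynomial.homogeneousComponent d F)))
    (H : ℕ) (hH : ∑ m ∈ F.support, (F.coeff m).natAbs ≤ H) :
    (Set.ncard {t : ℤ | |t| ≤ (H : ℤ) ∧ ∃ x y : ℤ, MvPolynomial.eval ![x, y] F = t ∧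
      ((d + 1) * H) ^ (2 * 10 ^ 11 * 36 ^ d * (d + 1) ^ 13) < max x.natAbs y.natAbs} : ℝ)
      ≤ (10 ^ 9 * 36 ^ d * (d + 1) ^ 7 : ℕ) * (H : ℝ) ^ (1 / (d : ℝ)) := by
  classical
  subst hF
  obtain ⟨A, hA⟩ : ∃ A : Set ℤ, A = {t : ℤ | |t| ≤ (H : ℤ) ∧ ∃ x y : ℤ,
    MvPolynomial.eval ![x, y] F = t ∧ ((F.totalDegree + 1) * H) ^
      (2 * 10 ^ 11 * 36 ^ F.totalDegree * (F.totalDegree + 1) ^ 13) < max x.natAbs y.natAbs} :=
    ⟨_, rfl⟩
  rw [← hA]
  have hfin : A.Finite := by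
    apply (Set.finite_Icc (-(H : ℤ)) H).subset
    intro t ht
    rw [hA] at ht
    exact abs_le.1 ht.1
  have hF0 : F ≠ 0 := by
    rintro rfl
    simp at hd
  have hH1 : 1 ≤ H := (len_pos hF0).trans hH
  have hH1R : (1 : ℝ) ≤ H := by exact_mod_cast hH1
  obtain ⟨ρ, hρ⟩ : ∃ ρ : ℝ, ρ = (H : ℝ) ^ (1 / (F.totalDegree : ℝ)) := ⟨_, rfl⟩
  have hρ1 : 1 ≤ ρ := by
    rw [hρ]
    exact Real.one_le_rpow hH1R (by positivity)
  obtain ⟨m, hm⟩ : ∃ m, m = ⌈ρ⌉₊ := ⟨_, rfl⟩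
  have hρm : ρ ≤ m := by rw [hm]; exact Nat.le_ceil _
  have hmρ : (m : ℝ) ≤ 2 * ρ := by
    rw [hm]
    have := (Nat.ceil_lt_add_one (by linarith : 0 ≤ ρ)).le
    linarith
  have hm1 : 1 ≤ m := by
    have : (1 : ℝ) ≤ m := hρ1.trans hρm
    exact_mod_cast this
  have hHm : H ≤ m ^ F.totalDegree := by
    have h1 : (H : ℝ) = ρ ^ F.totalDegree := by
      rw [hρ, one_div]
      exact (Real.rpow_inv_natCast_pow (by positivity) (by omega)).symm
    have h2 : (H : ℝ) ≤ (m : ℝ) ^ F.totalDegree := by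
      rw [h1]
      exact pow_le_pow_left₀ (by linarith) hρm _
    exact_mod_cast h2
  have hmain := mainD F H m hd hsq hH hm1 hHm hfin.toFinset (by
    intro t ht
    rw [Set.Finite.mem_toFinset, hA] at ht
    exact ht)
  rw [Set.ncard_eq_toFinset_card A hfin]
  have h1 : ((hfin.toFinset.card : ℕ) : ℝ)
      ≤ ((200 * F.totalDegree ^ 3 * kap F.totalDegree * m : ℕ) : ℝ) := by exact_mod_cast hmain
  refine h1.trans ?_
  rw [← hρ]
  obtain ⟨d, hdd⟩ : ∃ d, d = F.totalDegree := ⟨_, rfl⟩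
  rw [← hdd]
  have h2 : 400 * d ^ 3 * kap d ≤ 10 ^ 9 * 36 ^ d * (d + 1) ^ 7 := by
    unfold kap
    have h3 : d ^ 3 ≤ (d + 1) ^ 3 := Nat.pow_le_pow_left (by omega) _
    calc 400 * d ^ 3 * (10 ^ 6 * 36 ^ d * (d + 1) ^ 4)
        ≤ 400 * (d + 1) ^ 3 * (10 ^ 6 * 36 ^ d * (d + 1) ^ 4) := by gcongr
      _ = (400 * 10 ^ 6) * 36 ^ d * (d + 1) ^ 7 := by ring
      _ ≤ _ := by
        apply Nat.mul_le_mul_right
        apply Nat.mul_le_mul_right
        norm_num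
  have h3 : ((400 * d ^ 3 * kap d : ℕ) : ℝ) ≤ ((10 ^ 9 * 36 ^ d * (d + 1) ^ 7 : ℕ) : ℝ) := by
    exact_mod_cast h2
  calc ((200 * d ^ 3 * kap d * m : ℕ) : ℝ) = ((200 * d ^ 3 * kap d : ℕ) : ℝ) * m := by push_cast; ring
    _ ≤ ((200 * d ^ 3 * kap d : ℕ) : ℝ) * (2 * ρ) := by
      apply mul_le_mul_of_nonneg_left hmρ (by positivity)
    _ = ((400 * d ^ 3 * kap d : ℕ) : ℝ) * ρ := by push_cast; ring
    _ ≤ _ := by
      apply mul_le_mul_of_nonneg_right h3 (by linarith)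

end Pool.Agent.Results.MP_2d259b_nt.AllFibres
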