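import Pool.Agent.H322R2.AsmF

/-!
Let `S` be a finite set of integer points and `d ≥ 2 |S| + 4`.  All but a proportion
`O(H^(-1/(10000 d)))` (with an explicit constant) of the polynomials `f ∈ ℤ[x, y]` of degree at
most `d`, with coefficients bounded by `H`, which vanish on `S`, have no integer zero outside `S`.
-/

open Polynomial Finset

namespace Pool.Agent.Results.MP_2d259b_nt.PrescribedZeroSet

open Pool.Agent.H322R2

/-- **Almost every plane curve through `S` has exactly the integer points `S`, effectively.**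
Let `S` be a finite set of integer points with coordinates bounded by `B`, and `d ≥ 2|S| + 4`.
Among the polynomials `f ∈ ℤ[x, y]` of degree at most `d`, with coefficients of absolute value at
most `H`, that vanish on `S` (there are at least `H^(N-|S|) / (N (B+1)^d)^|S|` of them, where
`N = (d+1)(d+2)/2`), the proportion of those which have an integer zero (of any size) outside `S`
is at most `C H^(-1/(10^4 d))`, where
`C = 10^15 2^(d^2+6d) (d+1)^(d+13) + 1000 * 2^d (2d+4)^N (B+1)^(|S|(d+1))`. -/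
theorem result (S : Finset (ℤ × ℤ)) (d : ℕ) (hd : 2 * S.card + 4 ≤ d) (B : ℕ)
    (hB : ∀ p ∈ S, |p.1| ≤ (B : ℤ) ∧ |p.2| ≤ (B : ℤ)) (H : ℕ) (hH : 1 ≤ H) :
    (H : ℝ) ^ ((d + 1) * (d + 2) / 2 - S.card) ≤
      ((((d + 1) * (d + 2) / 2 : ℕ) : ℝ) * ((B : ℝ) + 1) ^ d) ^ S.card *
      (Set.ncard {f : MvPolynomial (Fin 2) ℤ | (f.totalDegree ≤ d ∧ ∀ m, |f.coeff m| ≤ (H : ℤ)) ∧
        ∀ p ∈ S, MvPolynomial.eval ![p.1, p.2] f = 0} : ℝ) ∧
    (Set.ncard {f : MvPolynomial (Fin 2) ℤ | ((f.totalDegree ≤ d ∧ ∀ m, |f.coeff m| ≤ (H : ℤ)) ∧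
        ∀ p ∈ S, MvPolynomial.eval ![p.1, p.2] f = 0) ∧
        ∃ x y : ℤ, (x, y) ∉ S ∧ MvPolynomial.eval ![x, y] f = 0} : ℝ) ≤
      (10 ^ 15 * 2 ^ (d ^ 2 + 6 * d) * ((d : ℝ) + 1) ^ (d + 13) +
        1000 * 2 ^ d * (2 * (d : ℝ) + 4) ^ ((d + 1) * (d + 2) / 2) *
          ((B : ℝ) + 1) ^ (S.card * (d + 1))) *
      (H : ℝ) ^ (-(1 / (10 ^ 4 * (d : ℝ)))) *
      (Set.ncard {f : MvPolynomial (Fin 2) ℤ | (f.totalDegree ≤ d ∧ ∀ m, |f.coeff m| ≤ (H : ℤ)) ∧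
        ∀ p ∈ S, MvPolynomial.eval ![p.1, p.2] f = 0} : ℝ) := by
  classical
  obtain ⟨S', hS'⟩ : ∃ S', S' = S.image Prod.swap := ⟨_, rfl⟩
  have hcard : S'.card = S.card := by
    rw [hS']; exact Finset.card_image_of_injective _ Prod.swap_injective
  have hmem : ∀ x y : ℤ, (x, y) ∈ S' ↔ (y, x) ∈ S := by
    intro x y
    rw [hS', Finset.mem_image]
    constructor
    · rintro ⟨q, hq, hq2⟩
      have e1 := congrArg Prod.fst hq2
      have e2 := congrArg Prod.snd hq2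
      have : q = (y, x) := Prod.ext e2 e1
      rwa [this] at hq
    · intro h
      exact ⟨(y, x), h, rfl⟩
  have hB' : ∀ p ∈ S', |p.1| ≤ (B : ℤ) ∧ |p.2| ≤ (B : ℤ) := by
    rintro ⟨x, y⟩ hp
    rw [hmem] at hp
    exact ⟨(hB _ hp).2, (hB _ hp).1⟩
  have hvan : ∀ c : ↥(Ix d) → ℤ, c ∈ Lam d S' ↔
      ∀ p ∈ S, MvPolynomial.eval ![p.1, p.2] (FM c) = 0 := by
    intro c
    rw [mem_Lam]
    constructor
    · intro h p hp
      rw [eval_FMV]
      exact h (p.2, p.1) ((hmem _ _).2 hp)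
    · rintro h ⟨x, y⟩ hp
      rw [hmem] at hp
      have := h _ hp
      rwa [eval_FMV] at this
  have hV : {f : MvPolynomial (Fin 2) ℤ | (f.totalDegree ≤ d ∧ ∀ m, |f.coeff m| ≤ (H : ℤ)) ∧
      ∀ p ∈ S, MvPolynomial.eval ![p.1, p.2] f = 0}
      = (((VB (Lam d S') H).image FM : Finset (MvPolynomial (Fin 2) ℤ)) : Set _) := by
    ext F
    rw [Set.mem_ofPred_eq, FM_memV, Finset.mem_coe, Finset.mem_image]
    constructor
    · rintro ⟨⟨c, hc, rfl⟩, h⟩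
      exact ⟨c, mem_VB.2 ⟨hc, (hvan c).2 h⟩, rfl⟩
    · rintro ⟨c, hc, rfl⟩
      rw [mem_VB] at hc
      exact ⟨⟨c, hc.1, rfl⟩, (hvan c).1 hc.2⟩
  have hVc : (Set.ncard {f : MvPolynomial (Fin 2) ℤ | (f.totalDegree ≤ d ∧
      ∀ m, |f.coeff m| ≤ (H : ℤ)) ∧ ∀ p ∈ S, MvPolynomial.eval ![p.1, p.2] f = 0} : ℝ)
      = Vo d S' H := by
    rw [hV, Set.ncard_coe_finset, Finset.card_image_of_injective _ FM_injectiveV]
    rfl
  have hW : {f : MvPolynomial (Fin 2) ℤ | ((f.totalDegree ≤ d ∧ ∀ m, |f.coeff m| ≤ (H : ℤ)) ∧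
      ∀ p ∈ S, MvPolynomial.eval ![p.1, p.2] f = 0) ∧
      ∃ x y : ℤ, (x, y) ∉ S ∧ MvPolynomial.eval ![x, y] f = 0}
      = ((((VB (Lam d S') H).filter (fun c => ∃ p : ℤ × ℤ, p ∉ S' ∧
        ev p.1 p.2 (PG c) = 0)).image FM : Finset (MvPolynomial (Fin 2) ℤ)) : Set _) := by
    ext F
    rw [Set.mem_ofPred_eq, FM_memV, Finset.mem_coe, Finset.mem_image]
    constructor
    · rintro ⟨⟨⟨c, hc, rfl⟩, h⟩, x, y, hxy, h0⟩
      refine ⟨c, ?_, rfl⟩
      rw [Finset.mem_filter]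
      rw [eval_FMV] at h0
      exact ⟨mem_VB.2 ⟨hc, (hvan c).2 h⟩, (y, x), fun hh => hxy ((hmem _ _).1 hh), h0⟩
    · rintro ⟨c, hc, rfl⟩
      rw [Finset.mem_filter, mem_VB] at hc
      obtain ⟨⟨hc1, hc2⟩, ⟨x, y⟩, hp, h0⟩ := hc
      refine ⟨⟨⟨c, hc1, rfl⟩, (hvan c).1 hc2⟩, y, x, fun hh => hp ((hmem _ _).2 hh), ?_⟩
      rw [eval_FMV]
      exact h0
  rw [hVc]
  constructor
  · have h1 := Vo_lower (d := d) S' (by
      rw [hcard, card_Ix]
      have h2 : 2 * (d + 1) ≤ (d + 1) * (d + 2) := by nlinarith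
      omega) hB' H
    rw [hcard, card_Ix] at h1
    exact h1
  · rw [hW, Set.ncard_coe_finset, Finset.card_image_of_injective _ FM_injectiveV]
    have h2 := vec_boundV (d := d) S' (by rw [hcard]; exact hd) hB' hH
    rw [hcard] at h2
    unfold Pool.Agent.H322R2.CC at h2
    refine le_trans (le_of_eq ?_) h2
    unfold Cv
    congr!

end Pool.Agent.Results.MP_2d259b_nt.PrescribedZeroSet
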