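import Pool.Agent.H322R2.GFin

/-!
Random terms of low degree added to a fixed polynomial: an integer point exists with probability
exactly of the order `1 / H`.
-/

namespace Pool.Agent.Results.MP_2d259b_nt.RandomLowerTerms

open Pool.Agent.H322R2 in
lemma eq_image (F : MvPolynomial (Fin 2) ℤ) (e H : ℕ)
    [DecidablePred fun c : ↥(Ix e) → ℤ => ∃ x y : ℤ, MvPolynomial.eval ![x, y] (F + FM c) = 0] :
    {R : MvPolynomial (Fin 2) ℤ | R.totalDegree ≤ e ∧ (∀ m, |R.coeff m| ≤ (H : ℤ)) ∧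
      ∃ x y : ℤ, MvPolynomial.eval ![x, y] (F + R) = 0}
      = FM '' ((((Bx ↥(Ix e) H).filter (fun c => ∃ x y : ℤ,
        MvPolynomial.eval ![x, y] (F + FM c) = 0)) : Finset (↥(Ix e) → ℤ)) : Set (↥(Ix e) → ℤ)) := by
  ext R
  rw [Set.mem_setOf_eq, Set.mem_image]
  constructor
  · rintro ⟨h1, h2, h3⟩
    obtain ⟨c, hc, rfl⟩ := FM_memV.1 ⟨h1, h2⟩
    exact ⟨c, by rw [Finset.mem_coe, Finset.mem_filter]; exact ⟨hc, h3⟩, rfl⟩
  · rintro ⟨c, hc, rfl⟩
    rw [Finset.mem_coe, Finset.mem_filter] at hc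
    obtain ⟨h1, h2⟩ := FM_memV.2 ⟨c, hc.1, rfl⟩
    exact ⟨h1, h2, hc.2⟩

open Polynomial in
/-- Let `F` be an integer polynomial in two variables of total degree `d` whose leading form is
squarefree over `ℚ` and such that no real line meets the curve `F = 0` more than twice at infinity
(no real point at infinity is a flex), let `3 ≤ e ≤ d - 4` and let `H ≥ 1`. Among the
`(2 H + 1) ^ n`, `n = (e + 1) (e + 2) / 2`, polynomials `R` of degree at most `e` with coefficients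
bounded by `H` at most `((d + 1) * len F) ^ c * (2 H + 1) ^ (n - 1)` are such that the curve
`F + R = 0` has an integer point (of any size), where `len F` is the sum of the absolute values of
the coefficients of `F` and `c = 10 ^ 14 * 36 ^ d * (d + 1) ^ 14`; and at least
`(2 H + 1) ^ (n - 1)` are, if `|F(0,0)| ≤ H`. -/
theorem result (d e : ℕ) (he3 : 3 ≤ e) (he : e + 4 ≤ d) (F : MvPolynomial (Fin 2) ℤ)
    (hF : F.totalDegree = d)
    (hsq : Squarefree (MvPolynomial.map (Int.castRingHom ℚ)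
      (MvPolynomial.homogeneousComponent d F)))
    (hflex : ∀ p q : Fin 2 → ℝ, q ≠ 0 → d ≤
      (MvPolynomial.aeval (fun i => (C (p i) + C (q i) * X : ℝ[X])) F).natDegree + 2)
    (H : ℕ) (hH : 1 ≤ H) :
    Set.ncard {R : MvPolynomial (Fin 2) ℤ | R.totalDegree ≤ e ∧ (∀ m, |R.coeff m| ≤ (H : ℤ)) ∧
        ∃ x y : ℤ, MvPolynomial.eval ![x, y] (F + R) = 0}
      ≤ ((d + 1) * ∑ m ∈ F.support, (F.coeff m).natAbs) ^ (10 ^ 14 * 36 ^ d * (d + 1) ^ 14) *
        (2 * H + 1) ^ ((e + 1) * (e + 2) / 2 - 1) ∧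
    (|F.coeff 0| ≤ (H : ℤ) → (2 * H + 1) ^ ((e + 1) * (e + 2) / 2 - 1) ≤
      Set.ncard {R : MvPolynomial (Fin 2) ℤ | R.totalDegree ≤ e ∧ (∀ m, |R.coeff m| ≤ (H : ℤ)) ∧
        ∃ x y : ℤ, MvPolynomial.eval ![x, y] (F + R) = 0}) := by
  classical
  subst hF
  rw [eq_image F e H, Set.ncard_image_of_injective _ Pool.Agent.H322R2.FM_injectiveV,
    Set.ncard_coe_finset]
  constructor
  · have h1 := Pool.Agent.H322R2.mainG (e := e) F H he3 he hsq hflex hH
    rw [Pool.Agent.H322R2.card_Ix] at h1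
    have h2 : (∑ m ∈ F.support, (F.coeff m).natAbs) = Pool.Agent.H322R2.len F := rfl
    rw [h2]
    have h3 : 10 ^ 14 * 36 ^ F.totalDegree * (F.totalDegree + 1) ^ 14
        = Pool.Agent.H322R2.kG F.totalDegree := rfl
    rw [h3]
    obtain ⟨k, hk⟩ : ∃ k, k = Pool.Agent.H322R2.kG F.totalDegree := ⟨_, rfl⟩
    rw [← hk] at h1 ⊢
    have h4 : ((((F.totalDegree + 1) * Pool.Agent.H322R2.len F) ^ k *
        (2 * H + 1) ^ ((e + 1) * (e + 2) / 2 - 1) : ℕ) : ℝ)
        = (((F.totalDegree + 1) * Pool.Agent.H322R2.len F : ℕ) : ℝ) ^ k *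
        (2 * (H : ℝ) + 1) ^ ((e + 1) * (e + 2) / 2 - 1) := by push_cast; ring
    rw [← h4] at h1
    have h5 : (((Pool.Agent.H322R2.Bx ↥(Pool.Agent.H322R2.Ix e) H).filter (fun c => ∃ x y : ℤ,
        MvPolynomial.eval ![x, y] (F + Pool.Agent.H322R2.FM c) = 0)).card)
        ≤ ((F.totalDegree + 1) * Pool.Agent.H322R2.len F) ^ k *
        (2 * H + 1) ^ ((e + 1) * (e + 2) / 2 - 1) := by exact_mod_cast h1
    convert h5
  · intro hF0
    have h1 := Pool.Agent.H322R2.low_count (e := e) F H hF0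
    rw [Pool.Agent.H322R2.card_Ix] at h1
    convert h1

end Pool.Agent.Results.MP_2d259b_nt.RandomLowerTerms
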